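import Pool.Agent.Lib.MP_2081ef_co.Back

namespace Pool.Agent.Results.MP_2081ef_co.BackwardImplication

open Pool.Agent.Lib.MP_2081ef_co

/-- For every finite graph `G`: if `LS₊(G) = ASTAB*(G)` then `G` is `LS₊`-perfect. -/
theorem result (V : Type) [Fintype V] [DecidableEq V] (G : SimpleGraph V)
    (h : LSplus (ESTAB G) = ASTABstar G) : LSplus (ESTAB G) = STAB G :=
  backward G h

end Pool.Agent.Results.MP_2081ef_co.BackwardImplication
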