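import Pool.Agent.Lib.MP_2081ef_co.Ind

namespace Pool.Agent.Results.MP_2081ef_co.CriticalClass

open Pool.Agent.Lib.MP_2081ef_co

/-- The `LS₊`-perfect graph conjecture holds for every finite graph whose stable set polytope is
cut out by the bounds, the joined antiweb constraints and the joined critical rank constraints. -/
theorem result (V : Type) [Fintype V] [DecidableEq V] (G : SimpleGraph V)
    (h : ∀ x ∈ ASTABstar G, (∀ J : JoinedCrit G, J.lhs x ≤ 1) → x ∈ STAB G) :
    LSplus (ESTAB G) = STAB G ↔ LSplus (ESTAB G) = ASTABstar G :=
  class_thm h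

end Pool.Agent.Results.MP_2081ef_co.CriticalClass
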