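import Pool.Agent.Lib.MP_2081ef_co.Ind

namespace Pool.Agent.Results.MP_2081ef_co.CriticalRankAntiweb

open Pool.Agent.Lib.MP_2081ef_co

/-- Let `B` be a vertex set of a finite graph `G` such that the critical edges of `G[B]` form a
connected spanning subgraph of minimum degree at least two. Then the rank inequality
`x(B) ≤ α(G[B])` is valid for `LS₊(G)` if and only if `G[B]` is the antiweb `A_{|B|}^{α(G[B])}`. -/
theorem result (V : Type) [Fintype V] [DecidableEq V] (G : SimpleGraph V) (B : Finset V)
    (h : CritTwo (G.induce (B : Set V))) :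
    (∀ x ∈ LSplus (ESTAB G), ∑ v ∈ B, x v ≤ ((G.induce (B : Set V)).indepNum : ℝ)) ↔
      Nonempty (G.induce (B : Set V) ≃g antiweb B.card (G.induce (B : Set V)).indepNum) :=
  thmA_iff B h

end Pool.Agent.Results.MP_2081ef_co.CriticalRankAntiweb
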