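import Pool.Agent.Lib.MP_2081ef_co.NN5

namespace Pool.Agent.Results.MP_2081ef_co.LiftedFacets

open Pool.Agent.Lib.MP_2081ef_co Pool.Agent.Lib.MP_2081ef_co.Lifted

/-- A tame heavy facet of the stable set polytope of an induced subgraph is valid for `LS₊(G)`
if and only if it is a joined antiweb constraint. -/
theorem result (V : Type) [Fintype V] [DecidableEq V] (G : SimpleGraph V) (B : Finset V)
    (a : V → ℝ) (hF : Facet G B a) (hH : Heavy G B a) (hT : Tame G a B) :
    (∀ x ∈ LSplus (ESTAB G), ∑ v ∈ B, a v * x v ≤ 1) ↔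
      ∃ J : JoinedAntiweb G, ∀ x, J.lhs x = ∑ v ∈ B, a v * x v := by
  refine ⟨hT.joined hF hH, fun ⟨J, hJ⟩ x hx => ?_⟩
  rw [← hJ]
  exact (LSplus_subset_ASTAB G hx).2 J

end Pool.Agent.Results.MP_2081ef_co.LiftedFacets
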